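import Pool.Agent.U976.TBd.CU5

/-!
# Kummer covers of toric bundles over torus quotients in class C: currents and Kodaira dimension

Let `X = V / Γ` be the quotient of a complex torus of any dimension by any finite group; the torus need
not be algebraic, and the group may contain reflections, so that `K_X` may be negative. Let `Y → X` be a
toric bundle: all fibres are the same smooth complete toric variety, of any dimension, and the twists
`c i` are arbitrary line bundles on `X`. Let `F_j` be a section of the `m_j`-th power of the line bundle
`O_Y(e_j; A_j)` on `Y`, and let `Y'` be the Kummer cover of `Y` with the equations `y_j ^ m_j = F_j`. We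
assume that `Y'` is smooth, or only that its general fibre over `X` is smooth (then `K_{Y'}` is the
dualizing sheaf). So the theorem holds for all compact complex manifolds `Y'` of this form; they are in
class `C` (Kähler if the fan is projective), of any dimension and any algebraic dimension.

The theorem: `κ (Y') ≥ 0` if and only if `c_1(K_{Y'})` contains a closed positive current, that is, if
`K_{Y'}` has a singular hermitian metric with semipositive curvature; and this is so if and only if for
some `q ≥ 1` there is an effective torus invariant divisor `∑ β_i D_i` on `Y` in the class of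
`q K_{Y'}` such that the line bundle `q K_{Y'} - ∑ β_i D_i` (a line bundle on `X`) is nef. If `V → X` is
unramified in codimension one, this is so if and only if it is so for the general fibre.
So `κ (Y') = - ∞` if and only if `K_{Y'}` is not pseudo-effective, that is (by Boucksom, Demailly, Paun,
Peternell for projective, by Ou for Kähler manifolds) if and only if `Y'` is uniruled.

The proof. A metric is given by a function `w(v, x, y)` with plurisubharmonic logarithm. By the maximum
principle on branched covers of discs the supremum `g(t)` of `log w`, on the set where `|x_i|` has the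
size `e ^ (t_i)` with respect to the metric of the line bundle `c i`, is monotone in `t`, and
`g(t) ≤ g(t - h_c(z)) + h_L(z)` for all `z ∈ V`, where `h` are the Chern forms; for `t` and the
differences of the torus it is linear. The theorem of Hahn and Banach gives a real exponent
`β ≥ 0` in the class of `K_{Y'}` such that `H_L - ∑ β_i H_{c_i}` is semipositive. The pair
`(Y, ∑ (1 - 1 / m_j) div F_j)` has nonnegative log discrepancies along torus invariant divisors over the
general fibre, so that semipositivity is given by finitely many rational inequalities, and a rational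
exponent and a section of a multiple of `K_{Y'}` exist.

`IsTorusQuotient` and `LineBundle` are defined in `Pool.Agent.W594.SYZ.Defs2`; `IsChernForm` and
`IsNefForm` in `Pool.Agent.W594.SYZ.TQDefs`; `IsRamification` in `Pool.Agent.TH735.AQ.MirDefs`;
`IsSmoothFan`, `LinEquiv` and `IsSection` in `Pool.Agent.Q47.TB.Defs`; `GenNormalCrossing` in
`Pool.Agent.U976.TBd.NC2`; `IsCoverCanonical`, `canClass` and `IsCoverSection` in
`Pool.Agent.U976.TBd.K1`; `CoverEffective` and `NonzeroOn` in `Pool.Agent.U976.TBd.K3`; `IsLogPsh`,
`CoverSet`, `IsCoverMetric` and `CoverCurrentPsef` in `Pool.Agent.U976.TBd.CUDefs`.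
-/

set_option autoImplicit false

namespace Pool.Agent.Results.MP_e06174_ag.KummerCoversCurrents

open Pool.Agent.W594.SYZ2 Pool.Agent.TH735.AQ Q47.TB Pool.Agent.U976.TBd MvPolynomial

/-- Let `Y` be the toric bundle with the fan `u`, `S` and the twists `c i` over the torus quotient
`X = V / Γ`, let `F j` be a section of the `m j`-th power of `O_Y(e j; A j)`, such that the divisors
`F j = 0` on the general fibres are smooth and have normal crossings, and let `Y'` be the Kummer cover
`y_j ^ m_j = F_j` of `Y`. Let `p K_{Y'}`, `p ≥ 1`, be the pullback of the line bundle `O_Y(D; L)`,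
`D = canClass e m p`, where `H` is the Chern form of `L`.

(1) `K_{Y'}` has a singular hermitian metric with semipositive curvature current if and only if some
positive multiple of it has a nonzero section.
(2) This is so if and only if for some `q ≥ 1` there is an effective invariant divisor
`∑ β_i D_i` in the class of `q D` such that the line bundle `L ^ q ⊗ ∏ c_i ^ (-β_i)` on `X` is nef.
(3) If `V → X` is unramified in codimension one, this is so if and only if there is an effective
invariant divisor in the class of a multiple `q D`. -/
theorem result {V : Type*} [NormedAddCommGroup V] [NormedSpace ℂ V] [FiniteDimensional ℂ V]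
    (Γ : Subgroup (V ≃ᵃ[ℂ] V)) (hΓ : IsTorusQuotient Γ) (ρ : V → ℂ) (hρ : IsRamification Γ ρ)
    {ι : Type*} [Fintype ι] {n : ℕ} (u : ι → Fin n → ℤ) (S : Set (Set ι)) (hS : IsSmoothFan u S)
    (c : ι → LineBundle Γ) (Hc : ι → V → V → ℂ) (hc : ∀ i, IsChernForm (c i) (Hc i))
    {k : ℕ} (m : Fin k → ℕ) (hm : ∀ j, 1 ≤ m j) (e : Fin k → ι → ℤ) (A : Fin k → LineBundle Γ)
    (F : Fin k → V → MvPolynomial ι ℂ)
    (hF : ∀ j, IsSection u c (fun i => m j * e j i) (fun γ v => (A j).e γ v ^ m j) (F j))
    (hnc : GenNormalCrossing S F)
    (p : ℕ) (L : LineBundle Γ) (hL : IsCoverCanonical c A m p ρ L)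
    (H : V → V → ℂ) (hH : IsChernForm L H) :
    (CoverCurrentPsef u S c e A m F (canClass e m p) L ↔
      CoverEffective u S c e A m F (canClass e m p) L) ∧
    (CoverCurrentPsef u S c e A m F (canClass e m p) L ↔ ∃ q : ℕ, 1 ≤ q ∧ ∃ β : ι → ℕ,
      LinEquiv u (fun i => (β i : ℤ)) (fun i => q * canClass e m p i) ∧
        IsNefForm fun v w => (q : ℂ) * H v w - ∑ i, (β i : ℂ) * Hc i v w) ∧
    ((∀ v, ρ v ≠ 0) → (CoverCurrentPsef u S c e A m F (canClass e m p) L ↔
      ∃ q : ℕ, 1 ≤ q ∧ ∃ β : ι → ℕ,
        LinEquiv u (fun i => (β i : ℤ)) (fun i => q * canClass e m p i))) := by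
  obtain ⟨h1, h2, h3⟩ := kummer_psef hΓ hρ hS hc hm hF hnc hL hH
  have h4 := kummer_eff_of_metric hΓ hρ hS hc hm hF hnc hL hH
  have h5 : CoverEffective u S c e A m F (canClass e m p) L →
      CoverCurrentPsef u S c e A m F (canClass e m p) L := metric_of_section hS
  refine ⟨⟨h4, h5⟩, ⟨fun h => h1 (h3 (h4 h)), fun h => h5 (h2 h)⟩, fun h0 => ⟨fun h => ?_, ?_⟩⟩
  · obtain ⟨q, hq, β, hβ, -⟩ := h1 (h3 (h4 h))
    exact ⟨q, hq, β, hβ⟩
  · rintro ⟨q, hq, β, hβ⟩
    exact h5 (h2 ⟨q, hq, β, hβ, kummer_unram hΓ hρ h0 hS hc hm hF hnc hL hH hq hβ⟩)

end Pool.Agent.Results.MP_e06174_ag.KummerCoversCurrents
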