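import Pool.Agent.U192.TF.Fin

/-!
# Varieties dominated by the product of a curve and a variety of any kind over a positive one

Let `X₁` be a projective variety over `ℂ` of dimension `d`, `C` a curve of any genus, and let
`f : X₁ × C ⇢ W` be a dominant rational map of finite degree. It need not be related to the product
structure, and it need not be the quotient by a group. Let `X₁ ⇢ X` be a dominant rational map of
finite degree (for instance the identity), and let `V` be the image of `X₁ × C` in `W × X`, with the
projection `V → W`.

Let `T` be a finite set of rational functions on `X` such that `1` and the functions in `T` generate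
the function field `ℂ(V)` as a vector space over `ℂ(W)`, and let `H` be the divisor of the poles of the
functions in `T`. In other words, the linear system in `|H|` which corresponds to `T` separates the
points of `X` below the general fibre of `f`: they impose independent conditions on it. For instance,
if `X` is embedded in a projective space and there are `g` points of `X` below a general fibre, then one
can take for `H` the `(g - 1)`-fold multiple of a hyperplane section; and if these points are linearly
independent one can take a hyperplane section.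

**Theorem.** Suppose that some multiple `m (K_X - 2 H)`, `m ≥ 1`, has a nonzero section (on all models:
see `IsSection`). Then:

1. `W` is uniruled if and only if `κ(W) = -∞`, if and only if `K_W` is not pseudo-effective.
2. If `W` is not uniruled then `κ(W) ≥ κ(X, K_X - 2 H)`, in the form: if some multiple of `K_X - 2 H`
   has `a + 1` sections with algebraically independent ratios, then `κ(W) ≥ a`.
3. If `W` is not uniruled then `h⁰(W, m δ K_W) ≥ h⁰(X, m (K_X - 2 H))` for all `m`, where `δ` is the
   degree over `W` of the image of `X₁ × C` in `W × X₁`.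

In the theorems on such `W` in the starting files of this problem (`ProductWithCurveGenusZero`) and in
`MP_97d78d_ag.ProductsOfVarieties`, the canonical forms of `X = X₁` separate the points below a general
fibre, or twice as many, so `p_g(X) > 0`, and the forms on `W` are traces. Here the forms on `X` are
pluricanonical, `p_g(X) = 0` is possible, and traces do not work for them: the trace of a pluricanonical
form need not be regular. The theorem `SeparatingSystems` (same problem) cannot be applied to `f`, since
nothing is assumed on the canonical divisor of the curve `C` and on the functions on `X₁ × C` which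
are not functions on `X`.

Proof. Let `V₁` be the image of `X₁ × C` in `W × X₁`. The traces on `V₁` of the differentials `φ` on
`C` (times `dx_1 ... dx_d`, for coordinates `x` on `X`) are not all zero if `W` is not uniruled: the
fibres of `V₁ → X₁` are then not rational. Let `τ` be such a trace, and `θ` a section of
`m (K_X - 2 H)`. The product `τ ^ m θ` is an `m`-canonical form on `V₁`. Along a prime divisor over `V₁`
on which the functions of `X` are not all constant, `τ` has a zero of order at least `r - 1`, where
`r` is the ramification index over the divisor of `X`: since `τ / x_i` has at most a logarithmic pole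
for a local equation `x_i` of this divisor. Along the other prime divisors over `V₁` the form `τ` is
regular, and these are unramified over `V`, since `V₁ → V` is there a constant extension. Hence
`τ ^ m θ` is a section of `m (K_{V₁} - 2 H - R)`, `R` being the ramification of `V₁ → V`, in the sense
required for the norm inequality of `SeparatingSystems` relative to the intermediate cover
`V₁ → V → W`: the norm to `W` of the product, multiplied by the `(m deg (V₁ / V))`-th power of the
discriminant of a basis of `ℂ(V)` over `ℂ(W)` in `T`, is a regular `(m δ)`-canonical form on `W`.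
-/

set_option autoImplicit false
set_option linter.overlappingInstances false
set_option maxHeartbeats 4000000
set_option synthInstance.maxHeartbeats 400000

open FF Module Pool.Agent Pool.Agent.W602.GT
open Pool.Agent.W619.PQ (IsUniruled)
open Pool.Agent.W619.TW (HasIndep)

namespace Pool.Agent.Results.MP_e06174_ag.ProductsWithCurves

/-- The order of the poles along `v` of the functions in the finite set `T`: the multiplicity at `v`
of `H`, the smallest effective divisor with `H + (t) ≥ 0` for all `t ∈ T`, `t ≠ 0`. -/
noncomputable def poleOrder {E : Type} [Field E] [Algebra ℂ E] (T : Finset E) (v : Place ℂ E) : ℕ :=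
  T.sup fun z => (-v.ord z).toNat

/-- `θ` is a section of `m (K_X - 2 H)`, where `E` is the function field of `X`, of dimension `d`, and
`H` is the divisor of the poles of the functions in `T`: an `m`-canonical form of order at least
`2 m H_v` along all prime divisors `v` over `X`. -/
def IsSection {E : Type} [Field E] [Algebra ℂ E] (d m : ℕ) (T : Finset E)
    (θ : (Fin d → Derivation ℂ E E) → E) : Prop :=
  IsPluri m θ ∧ ∀ v : Place ℂ E, Divisorial d v → ∀ G : Fin d → Derivation ℂ E E,
    (∀ i, DerReg v (G i)) → θ G = 0 ∨ 2 * (m : ℤ) * poleOrder T v ≤ v.ord (θ G)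

/-- `κ(X, K_X - 2 H) ≥ a`: for some `m ≥ 1` there are `a + 1` sections of `m (K_X - 2 H)` with
algebraically independent ratios. For `a = 0`: there is a nonzero section. -/
def IsPositive {E : Type} [Field E] [Algebra ℂ E] (d a : ℕ) (T : Finset E) : Prop :=
  ∃ m : ℕ, 1 ≤ m ∧ ∃ θ : Fin (a + 1) → (Fin d → Derivation ℂ E E) → E,
    (∀ j, IsSection d m T (θ j)) ∧ ∃ G : Fin d → Derivation ℂ E E, θ 0 G ≠ 0 ∧
      AlgebraicIndependent ℂ fun j : Fin a => θ j.succ G / θ 0 G

/-- `1` and the functions in `T` generate the field `L(E)` as a vector space over `L`. Here `K` is the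
function field of `X₁ × C`, `E` the one of `X`, `L` the one of `W`, and so `L(E)` the one of the image
`V` of `X₁ × C` in `W × X`. -/
def Separates {K : Type} [Field K] [Algebra ℂ K] (L : Type) [Field L] [Algebra L K]
    (E : IntermediateField ℂ K) (T : Finset E) : Prop :=
  ∀ z ∈ IntermediateField.adjoin L (E : Set K),
    z ∈ Submodule.span L (insert 1 ((fun t : E => (t : K)) '' (T : Set E)))

/-- `ω` is a section of `m K_W`: an `m`-canonical form which is regular at all prime divisors over
`W`. Here `L` is the function field of `W`, of dimension `n`. -/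
def IsRegular (L : Type) [Field L] [Algebra ℂ L] (n m : ℕ)
    (ω : (Fin n → Derivation ℂ L L) → L) : Prop :=
  IsPluri m ω ∧ ∀ P : Place ℂ L, Divisorial n P → RegAt P ω

/-- `κ(W) ≥ a`: for some `m ≥ 1` there are `a + 1` sections of `m K_W` with algebraically independent
ratios. -/
def KodairaGe (L : Type) [Field L] [Algebra ℂ L] (n a : ℕ) : Prop :=
  ∃ m : ℕ, 1 ≤ m ∧ ∃ ω : Fin (a + 1) → (Fin n → Derivation ℂ L L) → L,
    (∀ j, IsRegular L n m (ω j)) ∧ ∃ D : Fin n → Derivation ℂ L L, ω 0 D ≠ 0 ∧
      AlgebraicIndependent ℂ fun j : Fin a => ω j.succ D / ω 0 D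

theorem conv {E : Type} [Field E] [Algebra ℂ E] {d m : ℕ} {T : Finset E}
    {θ : (Fin d → Derivation ℂ E E) → E} (h : IsSection d m T θ) :
    ∀ v : Place ℂ E, Divisorial d v → ∀ G : Fin d → Derivation ℂ E E,
      (∀ i, DerReg v (G i)) → θ G = 0 ∨ ∀ t : E, (t = 1 ∨ t ∈ T) → t ≠ 0 →
        (if (fun _ : Place ℂ E => False) v then -(m : ℤ) else 0) ≤ v.ord (θ G) + 2 * m * v.ord t := by
  intro v hv G hG
  rcases h.2 v hv G hG with h1 | h1
  · exact Or.inl h1
  refine Or.inr fun t ht _ => ?_
  rw [if_neg id]
  have h2 : -v.ord t ≤ poleOrder T v := by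
    rcases ht with rfl | ht
    · rw [v.ord_one, neg_zero]
      exact Int.natCast_nonneg _
    · have h3 : (-v.ord t).toNat ≤ poleOrder T v :=
        Finset.le_sup (f := fun z => (-v.ord z).toNat) ht
      have h4 := Int.self_le_toNat (-v.ord t)
      exact h4.trans (by exact_mod_cast h3)
  have h3 := mul_le_mul_of_nonneg_left h2 (by positivity : (0 : ℤ) ≤ 2 * m)
  linarith

/-- **Theorem.** Let `K` be the function field of the product of a variety with function field `E₁`, of
dimension `d`, and of a curve with function field `C`; let `E ⊆ E₁` be a subfield of the same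
transcendence degree, the function field of `X`, and `L ⊆ K` the function field of a variety `W`, the
extension being finite. Let `T ⊆ E` be a finite set of functions which separates the general fibre of
`V → W`, and let some multiple of `K_X - 2 H` have a nonzero section. Then `K_W` is pseudo-effective if
and only if `κ(W) ≥ 0`, if and only if `W` is not uniruled; and if `W` is not uniruled then
`κ(W) ≥ κ(X, K_X - 2 H)` and `h⁰(W, m δ K_W) ≥ h⁰(X, m (K_X - 2 H))` for all `m`. -/
theorem result (K : Type) [Field K] [Algebra ℂ K] [Algebra.EssFiniteType ℂ K] (d : ℕ)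
    (E E₁ C : IntermediateField ℂ K) (hE : Algebra.trdeg ℂ E = d) (hE₁ : Algebra.trdeg ℂ E₁ = d)
    (hC : Algebra.trdeg ℂ C = 1) (hK : Algebra.trdeg ℂ K = (d + 1 : ℕ)) (hEE : E ≤ E₁)
    (hsup : E₁ ⊔ C = ⊤) (L : Type) [Field L] [Algebra ℂ L] [Algebra L K] [IsScalarTower ℂ L K]
    [FiniteDimensional L K] (T : Finset E) (hT : Separates L E T) (hpos : IsPositive d 0 T) :
    [Psef ℂ L (d + 1) (fun _ => False), KodairaGe L (d + 1) 0,
      ¬ IsUniruled ℂ L (d + 1)].TFAE ∧
    (¬ IsUniruled ℂ L (d + 1) →
      (∀ a : ℕ, IsPositive d a T → KodairaGe L (d + 1) a) ∧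
      ∀ m N : ℕ, HasIndep ℂ E d N (IsSection d m T) →
        HasIndep ℂ L (d + 1) N (IsRegular L (d + 1)
          (m * finrank L (IntermediateField.adjoin L (E₁ : Set K))))) := by
  classical
  have hL : Algebra.trdeg ℂ L = (d + 1 : ℕ) := Y184.NT.trdeg_below (K := K) hK
  have hessL : Algebra.EssFiniteType ℂ L := TH466.QG.ess_below (K := K)
  have hFF : IsFF ℂ C := ⟨N999.SX.ess_any C, hC⟩
  have hset : ∀ z ∈ IntermediateField.adjoin L (E : Set K),
      z ∈ Submodule.span L {z : K | ∃ t : E, (t = 1 ∨ t ∈ T) ∧ (t : K) = z} := by
    intro z hz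
    refine Submodule.span_mono ?_ (hT z hz)
    rintro w (rfl | ⟨t, ht, rfl⟩)
    · exact ⟨1, Or.inl rfl, rfl⟩
    · exact ⟨t, Or.inr ht, rfl⟩
  have h := U192.TF.main (C := C) (L := L) hEE hsup hE hE₁ hK hset (BX := fun _ => False)
    (B := ∅) Set.finite_empty (BL := fun _ => False) (fun P Q e hQ => by
      constructor
      · exact fun h => h.elim
      · rintro (⟨_, _, h, -⟩ | ⟨_, h, -⟩)
        · exact h
        · exact h)
  have hunir : W619.PL.IsA1Uniruled ℂ L (d + 1) (fun _ => False) → IsUniruled ℂ L (d + 1) := by
    rintro ⟨M, i1, i2, φ, h1, h2, -⟩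
    exact ⟨M, i1, i2, h1, h2, ⟨φ⟩⟩
  have hunir' : IsUniruled ℂ L (d + 1) → W619.PL.IsA1Uniruled ℂ L (d + 1) (fun _ => False) := by
    rintro ⟨M, i1, i2, h1, h2, ⟨φ⟩⟩
    exact ⟨M, i1, i2, φ, h1, h2, fun _ _ _ _ _ _ => id⟩
  have hk1 : ∀ a, KodGe ℂ L (d + 1) (fun _ => False) a → KodairaGe L (d + 1) a := by
    rintro a ⟨m, hm, ω, hω, D, hD, hind⟩
    exact ⟨m, hm, ω, fun j => ⟨(hω j).1, fun P hP => (hω j).2.2 P hP id⟩, D, hD, hind⟩
  have hk2 : ∀ a, KodairaGe L (d + 1) a → KodGe ℂ L (d + 1) (fun _ => False) a := by
    rintro a ⟨m, hm, ω, hω, D, hD, hind⟩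
    refine ⟨m, hm, ω, fun j => ⟨(hω j).1, fun P hP G hG => ?_, fun P hP _ => (hω j).2 P hP⟩, D, hD,
      hind⟩
    refine (hω j).2 P hP G fun i f hf => ?_
    by_cases hf0 : f = 0
    · rw [hf0, map_zero]
      exact P.reg_zero
    · have h1 : G i f = G i f / f * f := (div_mul_cancel₀ _ hf0).symm
      rw [h1]
      exact P.reg_mul (hG i f) hf
  have hmain : ¬ IsUniruled ℂ L (d + 1) →
      (∀ a : ℕ, IsPositive d a T → KodairaGe L (d + 1) a) ∧
      ∀ m N : ℕ, HasIndep ℂ E d N (IsSection d m T) →
        HasIndep ℂ L (d + 1) N (IsRegular L (d + 1)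
          (m * finrank L (IntermediateField.adjoin L (E₁ : Set K)))) := by
    intro hu
    obtain ⟨h1, h2⟩ := h.resolve_left fun h => hu (hunir h)
    refine ⟨fun a => ?_, fun m N => ?_⟩
    · rintro ⟨m, hm, θ, hθ, G, hG, hind⟩
      exact hk1 a (h1 m a hm θ (fun j => (hθ j).1) (fun j => conv (hθ j)) G hG hind)
    · rintro ⟨θ, hθ, hs⟩
      obtain ⟨ω, hω, hs'⟩ := h2 m N θ (fun j => (hs j).1) (fun j => conv (hs j)) hθ
      exact ⟨ω, hω, fun j => ⟨(hs' j).1, fun P hP => (hs' j).2.2 P hP id⟩⟩
  refine ⟨?_, hmain⟩
  tfae_have 1 → 3 := fun h1 h2 => N145.PL.not_psef_of_a1 hL (hunir' h2) h1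
  tfae_have 3 → 2 := fun h1 => (hmain h1).1 0 hpos
  tfae_have 2 → 1 := fun h1 => N145.PL.psef_of_kodGe' (hk2 0 h1)
  tfae_finish

end Pool.Agent.Results.MP_e06174_ag.ProductsWithCurves
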