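import Pool.Agent.U192.SP.Psef
import Pool.Agent.U192.SP.Curve
import Pool.Agent.TH466.QG.Low

/-!
# The canonical divisor of an image and the linear systems which separate the general fibre

Let `f : V ⇢ W` be a dominant rational map of finite degree of projective varieties over `ℂ`, of
dimension `n`. It need not be a Galois cover. Let `1` and the finitely many rational functions in `T`
generate the function field `ℂ(V)` as a vector space over `ℂ(W)`, and let `H` be the divisor of the
poles of the functions in `T`, on a model of `V`. In other words, `H` is a divisor, and the linear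
system in `|H|` which corresponds to `T` separates the points of the general fibre of `f`: they impose
`deg f` independent conditions on it. For instance, if `V` is embedded in a projective space, one can
take for `H` the `(deg f - 1)`-fold multiple of a hyperplane section, and if the points of the general
fibre are linearly independent one can take a hyperplane section.

Let `Δ` be any `ℝ`-divisor on `W` (given by its multiplicities `δ P` at all prime divisors `P` over
`W`), and put `D = K_V + f^* Δ - 2 H`. Then: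

1. `h⁰ (W, m (deg f) (K_W + Δ)) ≥ h⁰ (V, m D)` for all `m`;
2. for every divisor `A` on `V` there is a divisor `A'` on `W`, which does not depend on `Δ`, with
   `h⁰ (W, m (deg f) (K_W + Δ) + A') ≥ h⁰ (V, m D + A)` for all `m`;
3. if `D` is pseudo-effective then `K_W + Δ` is pseudo-effective;
4. `κ(W, K_W + Δ) ≥ κ(V, D)`, in the form: if `m D` has `a + 1` sections with algebraically
   independent ratios then `κ(W, K_W + Δ) ≥ a`;
5. if `K_V - 2 H` is pseudo-effective (for instance, if a multiple has a nonzero section) then `W` is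
   not uniruled.

6. The constant `2` is optimal, for maps of degree two to the projective line: for every `c < 2` there
   are a map `f : V ⇢ ℙ¹` of degree at most two and `T` as above such that some multiple of
   `K_V - c H` has a nonzero section, but `ℙ¹` is uniruled. (`V` is the hyperelliptic curve
   `u ^ 2 (x ^ N - 1) = x ^ N + 1`, `f` is given by `x`, and `T = {u}`.)

Here `A` is given by a finite set `S` of functions: it is the smallest divisor with `A + (s) ≥ 0` for
all `s ∈ S`, `s ≠ 0`, and pseudo-effective means that for some `A` there are nonzero sections of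
`m D + A` for infinitely many `m`.

Proof. Let `y` be rational coordinates on `W`. For a basis `g` of `ℂ(V)` over `ℂ(W)` contained in `T`
and `1`, with the discriminant `ε`, and a section `θ = h (dy) ^ m` of `m D` the form
`N(h) ε ^ m (dy) ^ (m deg f)` on `W` is regular, as a section of `m (deg f) (K_W + Δ)`. In terms of
divisors: the branch divisor of `f` is linearly equivalent to `2 f_* H` minus an effective divisor. This
has to be proved at the prime divisors over `W` and in the Galois closure, where it is a statement on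
the orders of determinants. The map from sections to sections is not linear; the dimensions of the
spaces of sections are compared by means of the independence over `ℂ` of sufficiently many norms of
linear combinations. For 6. the form `(x ^ N - 1) ^ (N - 2) (dx / y) ^ N`, `y = (x ^ N - 1) u`, is a
section of `N K_V - 2 (N - 2) H`.
-/

set_option autoImplicit false
set_option linter.overlappingInstances false

open FF Module Pool.Agent.W602.GT
open Pool.Agent.W619.PQ (IsUniruled)
open Pool.Agent.W619.TW (HasIndep)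
open Pool.Agent.Y174 (PairSec PairKod)

namespace Pool.Agent.Results.MP_e06174_ag.SeparatingSystems

/-- The order of the poles along `Q` of the functions in the finite set `T`: the multiplicity at `Q`
of `H`, the smallest effective divisor with `H + (t) ≥ 0` for all `t ∈ T`, `t ≠ 0`. -/
noncomputable def poleOrder {L : Type} [Field L] [Algebra ℂ L] (T : Finset L) (Q : Place ℂ L) : ℕ :=
  T.sup fun z => (-Q.ord z).toNat

/-- The functions `1` and `t ∈ T` generate the function field `L` of `V` as a vector space over the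
function field `K` of `W`: the linear system of `T` separates the points of the general fibre. -/
def Separates (K : Type) {L : Type} [Field K] [Field L] [Algebra K L] (T : Finset L) : Prop :=
  Submodule.span K (insert 1 (T : Set L)) = ⊤

/-- `Q` lies over `P` with the ramification index `e`. -/
def LiesOver {K L : Type} [Field K] [Field L] [Algebra ℂ K] [Algebra ℂ L] [Algebra K L]
    (Q : Place ℂ L) (P : Place ℂ K) (e : ℕ) : Prop :=
  0 < e ∧ ∀ f : K, Q.ord (algebraMap K L f) = e * P.ord f

/-- `θ` is a section of `m (K_V + f^* Δ - c H) + A`, where `H` is the divisor of the poles of the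
functions in `T`, and `A` is the smallest divisor with `A + (s) ≥ 0` for all `s ∈ S`, `s ≠ 0` (for
`S = {1}` this is `A = 0`): if the prime divisor `Q` over `V` lies over the prime divisor `P` over `W`,
with the ramification index `e`, then the order of the `m`-canonical form `θ` along `Q` is at least
`c m H_Q + Q (s) - m e δ P`, for some `s ≠ 0` in `S`. -/
def IsSection {K L : Type} [Field K] [Field L] [Algebra ℂ K] [Algebra ℂ L] [Algebra K L]
    (δ : Place ℂ K → ℝ) (n m : ℕ) (c : ℝ) (T S : Finset L)
    (θ : (Fin n → Derivation ℂ L L) → L) : Prop :=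
  IsPluri m θ ∧
  ∀ (P : Place ℂ K) (Q : Place ℂ L) (e : ℕ), LiesOver Q P e → Divisorial n Q →
    ∀ G : Fin n → Derivation ℂ L L, (∀ i, DerReg Q (G i)) → θ G = 0 ∨ ∃ s ∈ S, s ≠ 0 ∧
      c * m * poleOrder T Q + Q.ord s ≤ Q.ord (θ G) + m * e * δ P

/-- `K_W + Δ` is pseudo-effective: for some divisor `A`, given by a finite set `S` of functions,
`m (K_W + Δ) + A` has a nonzero section for infinitely many `m`. -/
def IsPseff (K : Type) [Field K] [Algebra ℂ K] (n : ℕ) (δ : Place ℂ K → ℝ) : Prop :=
  ∃ S : Finset K, ∀ m0 : ℕ, ∃ m : ℕ, m0 ≤ m ∧ HasIndep ℂ K n 1 (PairSec ℂ K n δ S m 1)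

/-- `K_V + f^* Δ - c H` is pseudo-effective: for some divisor `A`, given by a finite set `S` of
functions, `m (K_V + f^* Δ - c H) + A` has a nonzero section for infinitely many `m`. -/
def IsPseffV {K L : Type} [Field K] [Field L] [Algebra ℂ K] [Algebra ℂ L] [Algebra K L]
    (δ : Place ℂ K → ℝ) (n : ℕ) (c : ℝ) (T : Finset L) : Prop :=
  ∃ S : Finset L, ∀ m0 : ℕ, ∃ m : ℕ, m0 ≤ m ∧ HasIndep ℂ L n 1 (IsSection δ n m c T S)

/-- The statements 1. to 5., for all varieties `V` and `W`, with the constant `c` in place of `2`. Let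
`L` be the function field of `V`, of dimension `n`, and `K ⊆ L` the one of `W`, the extension being
finite, of degree `deg f = finrank K L`, and let `T` separate the points of the general fibre. -/
def Inequalities (c : ℝ) : Prop :=
  ∀ (L : Type) [Field L] [Algebra ℂ L] [Algebra.EssFiniteType ℂ L] (n : ℕ),
    Algebra.trdeg ℂ L = n → ∀ (K : Type) [Field K] [Algebra ℂ K] [Algebra K L]
    [IsScalarTower ℂ K L] [FiniteDimensional K L] (T : Finset L), Separates K T →
    (∀ (δ : Place ℂ K → ℝ) (m N : ℕ), HasIndep ℂ L n N (IsSection δ n m c T {1}) →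
      HasIndep ℂ K n N (PairSec ℂ K n δ {1} (m * finrank K L) 1)) ∧
    (∀ S : Finset L, ∃ S' : Finset K, ∀ (δ : Place ℂ K → ℝ) (m N : ℕ),
      HasIndep ℂ L n N (IsSection δ n m c T S) →
      HasIndep ℂ K n N (PairSec ℂ K n δ S' (m * finrank K L) 1)) ∧
    (∀ δ : Place ℂ K → ℝ, IsPseffV δ n c T → IsPseff K n δ) ∧
    (∀ (δ : Place ℂ K → ℝ) (m a : ℕ), 1 ≤ m →
      ∀ θ : Fin (a + 1) → (Fin n → Derivation ℂ L L) → L,
      (∀ j, IsSection δ n m c T {1} (θ j)) → ∀ D : Fin n → Derivation ℂ L L, θ 0 D ≠ 0 →
      (AlgebraicIndependent ℂ fun j : Fin a => θ j.succ D / θ 0 D) → PairKod ℂ K n δ a) ∧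
    (IsPseffV (fun _ : Place ℂ K => 0) n c T → ¬ IsUniruled ℂ K n)

/-- 6. There are a map `f : V ⇢ ℙ¹` of degree at most two and `T` which separates the points of the
general fibre such that for some `m ≥ 1` there is a nonzero section of `m (K_V - c H)`; here `ℙ¹`
is uniruled. -/
def Counterexample (c : ℝ) : Prop :=
  ∃ (L : Type) (_ : Field L) (_ : Algebra ℂ L) (_ : Algebra (RatFunc ℂ) L),
    IsScalarTower ℂ (RatFunc ℂ) L ∧ Algebra.EssFiniteType ℂ L ∧ Algebra.trdeg ℂ L = 1 ∧
    FiniteDimensional (RatFunc ℂ) L ∧ finrank (RatFunc ℂ) L ≤ 2 ∧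
    ∃ (T : Finset L) (m : ℕ) (θ : (Fin 1 → Derivation ℂ L L) → L), Separates (RatFunc ℂ) T ∧
      1 ≤ m ∧ θ ≠ 0 ∧ IsSection (fun _ : Place ℂ (RatFunc ℂ) => 0) 1 m c T {1} θ ∧
      IsUniruled ℂ (RatFunc ℂ) 1

theorem le_pole {L : Type} [Field L] [Algebra ℂ L] [DecidableEq L] {T : Finset L} {Q : Place ℂ L}
    {t : L}
    (ht : t ∈ (insert 1 T : Finset L)) : -Q.ord t ≤ poleOrder T Q := by
  classical
  rw [Finset.mem_insert] at ht
  rcases ht with rfl | ht
  · rw [Q.ord_one]
    simp
  · have h1 : (-Q.ord t).toNat ≤ poleOrder T Q :=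
      Finset.le_sup (f := fun z => (-Q.ord z).toNat) ht
    have h2 := Int.self_le_toNat (-Q.ord t)
    exact h2.trans (by exact_mod_cast h1)

theorem conv {K L : Type} [Field K] [Field L] [DecidableEq L] [Algebra ℂ K] [Algebra ℂ L]
    [Algebra K L] {δ : Place ℂ K → ℝ} {n m : ℕ} {T S : Finset L} {θ : (Fin n → Derivation ℂ L L) → L}
    (h : IsSection δ n m 2 T S θ) :
    ∀ (P : Place ℂ K) (Q : Place ℂ L) (e : ℕ), LiesOver Q P e → Divisorial n Q →
      ∀ G : Fin n → Derivation ℂ L L, (∀ i, DerReg Q (G i)) → θ G = 0 ∨ ∃ s ∈ S, s ≠ 0 ∧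
        ∀ t ∈ (insert 1 T : Finset L), t ≠ 0 →
          (Q.ord s : ℝ) ≤ Q.ord (θ G) + 2 * m * Q.ord t + m * e * δ P := by
  intro P Q e hQ hQd G hG
  rcases h.2 P Q e hQ hQd G hG with h1 | ⟨s, hs, hs0, h1⟩
  · exact Or.inl h1
  refine Or.inr ⟨s, hs, hs0, fun t ht _ => ?_⟩
  have h2 : -(Q.ord t : ℝ) ≤ poleOrder T Q := by exact_mod_cast le_pole ht
  have h3 := mul_le_mul_of_nonneg_left h2 (by positivity : (0 : ℝ) ≤ 2 * m)
  linarith

/-- **Theorem.** The inequalities hold with the constant `2`, and with no smaller one. -/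
theorem result : Inequalities 2 ∧ (∀ c : ℝ, c < 2 → Counterexample c) ∧
    ∀ c : ℝ, c < 2 → ¬ Inequalities c := by
  classical
  have hcount : ∀ c : ℝ, c < 2 → Counterexample c := by
    intro c hc
    obtain ⟨L, i1, i2, i3, i4, i5, h1, u, m, θ, h2, h3, h4, h5, h6⟩ :=
      Pool.Agent.U192.SP.sharp c hc
    have hess := Pool.Agent.U192.SP.ess_ratFunc
    have hessL : Algebra.EssFiniteType ℂ L := Algebra.EssFiniteType.comp ℂ (RatFunc ℂ) L
    have htr : Algebra.trdeg ℂ L = (1 : ℕ) :=
      Pool.Agent.Y174.trdeg_up (K := RatFunc ℂ) Pool.Agent.U192.SP.trdeg_ratFunc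
    refine ⟨L, i1, i2, i3, i4, hessL, by simpa using htr, i5, h1, {u}, m, θ, ?_, h3, h5,
      ⟨h4, fun P Q e _ _ G hG => ?_⟩, Pool.Agent.U192.SP.uniruled_ratFunc⟩
    · rw [Separates, Finset.coe_singleton]
      exact h2
    · rcases h6 Q G hG with h | h
      · exact Or.inl h
      · refine Or.inr ⟨1, Finset.mem_singleton_self _, one_ne_zero, ?_⟩
        rw [Q.ord_one, Int.cast_zero, add_zero, mul_zero, add_zero]
        have h7 : poleOrder {u} Q = (-Q.ord u).toNat := by
          unfold poleOrder
          rw [Finset.sup_singleton]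
        rw [h7]
        exact h
  refine ⟨?_, hcount, fun c hc hI => ?_⟩
  · intro L _ _ _ n hL K _ _ _ _ _ T hT
    have hK : Algebra.EssFiniteType ℂ K := Pool.Agent.TH466.QG.ess_below (K := L)
    have hnK : Algebra.trdeg ℂ K = n := Pool.Agent.Y184.NT.trdeg_below (K := L) hL
    have hpos : 0 < finrank K L := finrank_pos
    have hT' : Submodule.span K (((insert 1 T : Finset L) : Finset L) : Set L) = ⊤ := by
      rw [Finset.coe_insert]
      exact hT
    have h1 : ∀ (δ : Place ℂ K → ℝ) (m N : ℕ), HasIndep ℂ L n N (IsSection δ n m 2 T {1}) →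
        HasIndep ℂ K n N (PairSec ℂ K n δ {1} (m * finrank K L) 1) := by
      obtain ⟨Z, hZ1, hZ⟩ := U192.SP.norm_ineq_sys (K := K) (insert 1 T) hT' {1}
        ⟨1, Finset.mem_singleton_self _, one_ne_zero⟩
      rw [hZ1 rfl] at hZ
      rintro δ m N ⟨θ, hθ, hs⟩
      exact hZ δ n m N hL θ (fun l => (hs l).1) (fun l => conv (hs l)) hθ
    have h2 : ∀ S : Finset L, ∃ S' : Finset K, ∀ (δ : Place ℂ K → ℝ) (m N : ℕ),
        HasIndep ℂ L n N (IsSection δ n m 2 T S) →
        HasIndep ℂ K n N (PairSec ℂ K n δ S' (m * finrank K L) 1) := by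
      intro S
      obtain ⟨Z, -, hZ⟩ := U192.SP.norm_ineq_sys (K := K) (insert 1 T) hT' (insert 1 S)
        ⟨1, Finset.mem_insert_self _ _, one_ne_zero⟩
      refine ⟨Z, ?_⟩
      rintro δ m N ⟨θ, hθ, hs⟩
      refine hZ δ n m N hL θ (fun l => (hs l).1) (fun l P Q e hQ hQd G hG => ?_) hθ
      rcases conv (hs l) P Q e hQ hQd G hG with h | ⟨s, hsS, hs0, h⟩
      · exact Or.inl h
      · exact Or.inr ⟨s, Finset.mem_insert_of_mem hsS, hs0, h⟩
    have h3 : ∀ δ : Place ℂ K → ℝ, IsPseffV δ n 2 T → IsPseff K n δ := by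
      rintro δ ⟨S, hS⟩
      obtain ⟨S', hS'⟩ := h2 S
      refine ⟨S', fun m0 => ?_⟩
      obtain ⟨m, hm, hi⟩ := hS m0
      exact ⟨m * finrank K L, hm.trans (Nat.le_mul_of_pos_right _ hpos), hS' δ m 1 hi⟩
    refine ⟨h1, h2, h3, fun δ m a hm θ hθ D hD hind => ?_, fun hV hu => ?_⟩
    · refine U192.SP.kod_sys (K := K) (insert 1 T) hT' hm hL (fun l => (hθ l).1)
        (fun l P Q e hQ hQd G hG => ?_) hD hind
      rcases conv (hθ l) P Q e hQ hQd G hG with h | ⟨s, hsS, hs0, h⟩
      · exact Or.inl h
      · right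
        rw [Finset.mem_singleton.1 hsS, Q.ord_one, Int.cast_zero] at h
        exact h
    · obtain ⟨S, hS⟩ := h3 _ hV
      obtain ⟨m0, hm0⟩ := U192.SP.neg_of_uniruled hnK hu S
      obtain ⟨m, hm, hi⟩ := hS m0
      exact hm0 m hm hi
  · obtain ⟨L, i1, i2, i3, i4, hess, htr, i5, h1, T, m, θ, h2, h3, h5, h6, hu⟩ := hcount c hc
    have htr' : Algebra.trdeg ℂ L = (1 : ℕ) := by rw [htr, Nat.cast_one]
    obtain ⟨D, hD⟩ := Function.ne_iff.1 h5
    have h7 := (hI L 1 htr' (RatFunc ℂ) T h2).2.2.2.1 (fun _ => 0) m 0 h3 (fun _ => θ)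
      (fun _ => h6) D hD (by
        rw [algebraicIndependent_empty_type_iff]
        exact (algebraMap ℂ L).injective)
    have h8 := Pool.Agent.U192.TD.kodGe_of_pair h7
    have hessR := Pool.Agent.U192.SP.ess_ratFunc
    exact U192.NM.not_neg_of_kod h8
      (Pool.Agent.W619.Y.uniruled_neg 1 Pool.Agent.U192.SP.trdeg_ratFunc hu).2

end Pool.Agent.Results.MP_e06174_ag.SeparatingSystems
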